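import Mathlib
import Pool.Agent.Lib.MP_524519_ag.DU5.TR.Iface

/-! DU5, chapter TR, module CNG: congruences modulo powers of `u`. -/

set_option autoImplicit false

namespace Pool.Agent.DU5.TR.H17

open MvPowerSeries

theorem cng : CngStatement := by
  intro n k A _ _ _ f x y M hx hy hxy
  have hmon : ∀ d : Fin n →₀ ℕ, PowerSeries.X ^ M ∣
      (d.prod fun s e => (y s) ^ e) - (d.prod fun s e => (x s) ^ e) := by
    intro d
    have h : ∀ s : Finset (Fin n), PowerSeries.X ^ M ∣
        (∏ j ∈ s, (y j) ^ (d j)) - ∏ j ∈ s, (x j) ^ (d j) := by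
      intro s
      induction s using Finset.induction_on with
      | empty => simp
      | insert a s ha ih =>
        rw [Finset.prod_insert ha, Finset.prod_insert ha]
        have h1 : PowerSeries.X ^ M ∣ (y a) ^ (d a) - (x a) ^ (d a) :=
          (hxy a).trans (sub_dvd_pow_sub_pow _ _ _)
        have e : (y a) ^ (d a) * (∏ j ∈ s, (y j) ^ (d j)) -
            (x a) ^ (d a) * (∏ j ∈ s, (x j) ^ (d j)) =
            ((y a) ^ (d a) - (x a) ^ (d a)) * (∏ j ∈ s, (y j) ^ (d j)) +
              (x a) ^ (d a) * ((∏ j ∈ s, (y j) ^ (d j)) - ∏ j ∈ s, (x j) ^ (d j)) := by ring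
        rw [e]
        exact dvd_add (h1.mul_right _) (ih.mul_left _)
    exact h d.support
  rw [PowerSeries.X_pow_dvd_iff]
  intro m hm
  rw [map_sub, sub_eq_zero]
  have hc : ∀ z : Fin n → PowerSeries A, (∀ j, PowerSeries.constantCoeff (z j) = 0) →
      PowerSeries.coeff m (ev z f) = finsum (fun d : Fin n →₀ ℕ =>
        MvPowerSeries.coeff d f • PowerSeries.coeff m (d.prod fun s e => (z s) ^ e)) := by
    intro z hz
    exact coeff_subst (hs hz) f (Finsupp.single () m)
  rw [hc y hy, hc x hx]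
  refine finsum_congr fun d => ?_
  congr 1
  have h := (PowerSeries.X_pow_dvd_iff.1 (hmon d)) m hm
  rw [map_sub, sub_eq_zero] at h
  exact h

end Pool.Agent.DU5.TR.H17
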