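import Mathlib
import Pool.Agent.Lib.MP_524519_ag.DU5.TR.Iface

/-! DU5, chapter TR, module DET: linear algebra. -/

set_option autoImplicit false

namespace Pool.Agent.DU5.TR.H17

theorem det : DetStatement := by
  intro n F _ W hW
  have hspan : Submodule.span F W = ⊤ := by
    by_contra hne
    obtain ⟨φ, hφ, hker⟩ := Submodule.exists_le_ker_of_lt_top _ (lt_top_iff_ne_top.2 hne)
    have hrep : ∀ w : Fin n → F, φ w = ∑ b, φ (Pi.single b 1) * w b := by
      intro w
      conv_lhs => rw [← Finset.univ_sum_single w]
      rw [map_sum]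
      refine Finset.sum_congr rfl fun b _ => ?_
      have : (Pi.single b (w b) : Fin n → F) = w b • (Pi.single b (1 : F)) := by
        rw [← Pi.single_smul, smul_eq_mul, mul_one]
      rw [this, map_smul, smul_eq_mul, mul_comm]
    have he : (fun b => φ (Pi.single b 1) : Fin n → F) ≠ 0 := by
      intro h0
      apply hφ
      ext b
      have := congrFun h0 b
      simpa using this
    obtain ⟨w, hw, hne'⟩ := hW _ he
    apply hne'
    have h1 : φ w = 0 := hker (Submodule.subset_span hw)
    rw [← h1, hrep w]
  obtain ⟨b, hbW, hbs, hbl⟩ := exists_linearIndependent F W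
  rw [hspan] at hbs
  have hb := Module.Basis.mk hbl (by rw [Subtype.range_coe, hbs])
  have : Fintype b := FiniteDimensional.fintypeBasisIndex hb
  have hcard : Fintype.card b = n := by
    rw [← Module.finrank_eq_card_basis hb, Module.finrank_fin_fun]
  let e : Fin n ≃ b := (Fintype.equivFinOfCardEq hcard).symm
  refine ⟨fun a => (e a : Fin n → F), fun a => hbW (e a).2, ?_⟩
  have hli : LinearIndependent F (fun a => ((e a : b) : Fin n → F)) :=
    hbl.comp e e.injective
  have := (Matrix.linearIndependent_rows_iff_isUnit
    (A := Matrix.of fun a => ((e a : b) : Fin n → F))).1 hli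
  rw [Matrix.isUnit_iff_isUnit_det] at this
  exact this.ne_zero

end Pool.Agent.DU5.TR.H17
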