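import Mathlib
import Pool.Agent.Lib.MP_524519_ag.DU5.TR.Iface

/-! DU5, chapter TR, module LAM: specialisation of a point with a pole to `ℂ⟦τ⟧`. -/

set_option autoImplicit false

namespace Pool.Agent.DU5.TR.H17

open MvPowerSeries

theorem ev_sum {k A : Type} [Field k] [CommRing A] [Algebra k A] {n m : ℕ}
    {x : Fin m → PowerSeries A} (hx : ∀ i, PowerSeries.constantCoeff (x i) = 0)
    (e : Fin n → k) (h : Fin n → O k m) :
    ev x (∑ b, e b • h b) = ∑ b, e b • ev x (h b) := by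
  unfold ev
  rw [← coe_substAlgHom (hs hx), map_sum]
  simp only [map_smul]

theorem Pol_sum {k A : Type} [Field k] [CommRing A] [Algebra k A] (D : Derivation k A A) {n : ℕ}
    {x : Fin 3 → PowerSeries A} (hx : ∀ i, PowerSeries.constantCoeff (x i) = 0) (i : Fin 3)
    (v : PowerSeries A) (e : Fin n → k) (h : Fin n → O k 3) (m : ℕ) :
    Pol D x i v (∑ b, e b • h b) m = ∑ b, e b • Pol D x i v (h b) m := by
  unfold Pol
  rw [ev_sum hx, Finset.mul_sum, Finset.sum_mul, map_sum]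
  refine Finset.sum_congr rfl fun b _ => ?_
  rw [mul_smul_comm, smul_mul_assoc]
  rfl

theorem lam (hp : PoleStatement) (hl : LiftStatement) (ha : ArclStatement) : LamStatement := by
  classical
  intro f m n t T hm h e hadj
  obtain ⟨K, _, _, D, x, i, c, v, hdat, r, hrc, hpol⟩ := hp f m t T hm (∑ b, e b • h b) hadj
  have hinj : Function.Injective (algebraMap ℂ K) := (algebraMap ℂ K).injective
  have : CharZero K := charZero_of_injective_algebraMap hinj
  set H : O ℂ 3 := ∑ b, e b • h b with hH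
  set N : ℕ := 3 * c + 2 with hN
  set S : Finset K := insert (PowerSeries.constantCoeff v)
    ((Finset.univ ×ˢ Finset.range (N + 1)).image fun q : Fin 3 × ℕ =>
      PowerSeries.coeff q.2 (x q.1)) with hS
  obtain ⟨a, ha0, hlift⟩ := hl ℂ K hinj D S ∅ {Pol D x i v H r}
    (by simp) (by simpa using Ne.symm hpol)
  obtain ⟨B, B', ψ, φ, hspe, hSB, -, hC, -, hG⟩ := hlift ℂ (RingHom.id ℂ) (by simpa using ha0)
  obtain ⟨hBB, hDB, hφψ, hφ1⟩ := hspe
  have hCB' : ∀ z : ℂ, ∃ b : B', (b : K) = algebraMap ℂ K z ∧ ψ b = z := by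
    intro z
    obtain ⟨b, hb, hφb⟩ := hC z
    refine ⟨⟨(b : K), hBB b.2⟩, hb, ?_⟩
    rw [← hφψ b ⟨(b : K), hBB b.2⟩ rfl, hφb]
    simp
  obtain ⟨x', v', hdat', hred⟩ := ha ℂ K ℂ D B B' ψ φ ⟨hBB, hDB, hφψ, hφ1⟩ f f x i c N v hdat
    le_rfl (hSB _ (by simp [hS]))
    (fun α _ => by
      obtain ⟨b, hb, hφb⟩ := hC (coeff α f)
      exact ⟨b, hb, by simpa using hφb⟩)
    (fun j m' hm' => hSB _ (by
      rw [hS]
      refine Finset.mem_insert_of_mem (Finset.mem_image.2 ⟨(j, m'), ?_, rfl⟩)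
      simp only [Finset.mem_product, Finset.mem_univ, Finset.mem_range, true_and]
      omega))
  obtain ⟨b, hb, hψb⟩ := hred H H (fun α _ => hCB' (coeff α H)) r hrc
  refine ⟨x', i, c, r, v', hdat', hrc, ?_⟩
  have hne : ψ b ≠ 0 := hG b (by rw [hb]; simp)
  rw [hψb, hH, Pol_sum _ hdat'.1, map_sum] at hne
  simpa [PowerSeries.smul_eq_C_mul] using hne

end Pool.Agent.DU5.TR.H17
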